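import Pool.Agent.Run7.h670.MY.StmD

/-! Piece D_BALL of the project MY of helper670: the potential of a set of given volume in
`ℝ^d` (after the piece BALL of helper799). -/

set_option autoImplicit false

open MeasureTheory Set
open scoped ENNReal

namespace Run7.h631.MY

open Pool.Agent.Run7.h670.MY

theorem om_pos (d : ℕ) : 0 < om d := by
  unfold om
  have h1 : 0 < Real.Gamma ((d : ℝ) / 2 + 1) := Real.Gamma_pos_of_pos (by positivity)
  have h2 : 0 < √Real.pi := Real.sqrt_pos.2 Real.pi_pos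
  positivity

theorem level_vol (d : ℕ) (hd : 3 ≤ d) (A : Set (V d)) (y : V d) (t : ℝ) (ht : 0 < t) :
    (volume.restrict A) {x : V d | t < (‖x - y‖ ^ 2)⁻¹} ≤
      min (volume A) (ENNReal.ofReal (om d * t ^ (-((d : ℝ) / 2)))) := by
  refine le_min ?_ ?_
  · calc (volume.restrict A) {x : V d | t < (‖x - y‖ ^ 2)⁻¹} ≤ (volume.restrict A) univ :=
          measure_mono (subset_univ _)
      _ = volume A := by rw [Measure.restrict_apply_univ]
  · have hsub : {x : V d | t < (‖x - y‖ ^ 2)⁻¹} ⊆ Metric.ball y (√(t⁻¹)) := by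
      intro x hx
      have hx' : t < (‖x - y‖ ^ 2)⁻¹ := hx
      rw [Metric.mem_ball, dist_eq_norm]
      have h1 : 0 < (‖x - y‖ ^ 2)⁻¹ := ht.trans hx'
      have h2 : ‖x - y‖ ^ 2 < t⁻¹ := by
        have h3 := inv_strictAnti₀ ht hx'
        rwa [inv_inv] at h3
      exact Real.lt_sqrt_of_sq_lt h2
    have : Nonempty (Fin d) := ⟨⟨0, by omega⟩⟩
    calc (volume.restrict A) {x : V d | t < (‖x - y‖ ^ 2)⁻¹} ≤
          volume {x : V d | t < (‖x - y‖ ^ 2)⁻¹} := Measure.restrict_apply_le _ _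
      _ ≤ volume (Metric.ball y (√(t⁻¹))) := measure_mono hsub
      _ = ENNReal.ofReal (om d * t ^ (-((d : ℝ) / 2))) := by
        rw [EuclideanSpace.volume_ball, Fintype.card_fin,
          ← ENNReal.ofReal_pow (Real.sqrt_nonneg _),
          ← ENNReal.ofReal_mul (by positivity)]
        congr 1
        rw [mul_comm]
        congr 1
        rw [Real.sqrt_eq_rpow, ← Real.rpow_natCast, ← Real.rpow_mul (by positivity),
          Real.inv_rpow ht.le, ← Real.rpow_neg ht.le]
        congr 1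
        ring

theorem tail_int (d : ℕ) (hd : 3 ≤ d) (t0 : ℝ) (h0 : 0 < t0) :
    ∫⁻ t in Ioi t0, ENNReal.ofReal (om d * t ^ (-((d : ℝ) / 2))) =
      ENNReal.ofReal (2 / ((d : ℝ) - 2) * om d * t0 ^ (1 - (d : ℝ) / 2)) := by
  have hD : (3 : ℝ) ≤ d := by exact_mod_cast hd
  have hint : IntegrableOn (fun t : ℝ => om d * t ^ (-((d : ℝ) / 2))) (Ioi t0) :=
    (integrableOn_Ioi_rpow_of_lt (by linarith) h0).const_mul (om d)
  rw [← ofReal_integral_eq_lintegral_ofReal hint]
  · congr 1
    rw [integral_const_mul, integral_Ioi_rpow_of_lt (by linarith) h0]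
    have e : (-((d : ℝ) / 2) + 1 : ℝ) = 1 - (d : ℝ) / 2 := by ring
    rw [e]
    have e2 : (1 - (d : ℝ) / 2) = -(((d : ℝ) - 2) / 2) := by ring
    have h3 : (d : ℝ) - 2 ≠ 0 := by linarith
    have e3 : -t0 ^ (1 - (d : ℝ) / 2) / (1 - (d : ℝ) / 2) =
        2 / ((d : ℝ) - 2) * t0 ^ (1 - (d : ℝ) / 2) := by
      generalize t0 ^ (1 - (d : ℝ) / 2) = w
      rw [e2]
      field_simp
    rw [e3]
    ring
  · refine (ae_restrict_iff' measurableSet_Ioi).2 (Filter.Eventually.of_forall ?_)
    intro t ht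
    have h1 : 0 < t := h0.trans ht
    have := om_pos d
    simp only [Pi.zero_apply]
    positivity

theorem t_D_BALL : D_BALL := by
  intro d hd A y hA hfin
  have hD : (3 : ℝ) ≤ d := by exact_mod_cast hd
  have hD0 : (d : ℝ) ≠ 0 := by linarith
  have hD2 : (0 : ℝ) < (d : ℝ) - 2 := by linarith
  have hexp : 0 < 1 - 2 / (d : ℝ) := by
    rw [sub_pos, div_lt_one (by linarith)]
    linarith
  by_cases hz : volume A = 0
  · rw [Measure.restrict_eq_zero.2 hz, lintegral_zero_measure]
    exact bot_le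
  set V' : ℝ := (volume A).toReal with hV
  have hVpos : 0 < V' := ENNReal.toReal_pos hz hfin
  have hVe : volume A = ENNReal.ofReal V' := (ENNReal.ofReal_toReal hfin).symm
  have hom := om_pos d
  set t0 : ℝ := (om d / V') ^ (2 / (d : ℝ)) with ht0
  have ht0pos : 0 < t0 := by positivity
  have hm : Measurable (fun x : V d => (‖x - y‖ ^ 2)⁻¹) := by fun_prop
  rw [lintegral_eq_lintegral_meas_lt (volume.restrict A)
    (Filter.Eventually.of_forall (fun x => by simp only [Pi.zero_apply]; positivity))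
    hm.aemeasurable]
  have hsplit : Ioi (0 : ℝ) = Ioc 0 t0 ∪ Ioi t0 := (Ioc_union_Ioi_eq_Ioi ht0pos.le).symm
  calc ∫⁻ t in Ioi 0, (volume.restrict A) {x : V d | t < (‖x - y‖ ^ 2)⁻¹}
      ≤ ∫⁻ t in Ioi (0 : ℝ), min (volume A) (ENNReal.ofReal (om d * t ^ (-((d : ℝ) / 2)))) := by
        refine setLIntegral_mono' measurableSet_Ioi ?_
        intro t ht
        exact level_vol d hd A y t ht
    _ ≤ (∫⁻ t in Ioc 0 t0, min (volume A) (ENNReal.ofReal (om d * t ^ (-((d : ℝ) / 2))))) +
        ∫⁻ t in Ioi t0, min (volume A) (ENNReal.ofReal (om d * t ^ (-((d : ℝ) / 2)))) := by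
        rw [hsplit]
        exact lintegral_union_le _ _ _
    _ ≤ (∫⁻ _ in Ioc 0 t0, volume A) +
        ∫⁻ t in Ioi t0, ENNReal.ofReal (om d * t ^ (-((d : ℝ) / 2))) := by
        refine add_le_add (lintegral_mono (fun t => min_le_left _ _))
          (lintegral_mono (fun t => min_le_right _ _))
    _ = ENNReal.ofReal ((d : ℝ) / ((d : ℝ) - 2) * om d ^ (2 / (d : ℝ))) *
          volume A ^ (1 - 2 / (d : ℝ)) := by
        rw [setLIntegral_const, Real.volume_Ioc, sub_zero, tail_int d hd t0 ht0pos, hVe,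
          ← ENNReal.ofReal_mul hVpos.le, ← ENNReal.ofReal_add (by positivity) (by positivity),
          ENNReal.ofReal_rpow_of_pos hVpos, ← ENNReal.ofReal_mul (by positivity)]
        congr 1
        have e1 : V' * t0 = om d ^ (2 / (d : ℝ)) * V' ^ (1 - 2 / (d : ℝ)) := by
          rw [ht0, Real.div_rpow hom.le hVpos.le]
          have h1 : V' = V' ^ (1 - 2 / (d : ℝ)) * V' ^ (2 / (d : ℝ)) := by
            rw [← Real.rpow_add hVpos]
            rw [sub_add_cancel, Real.rpow_one]
          have h2 : 0 < V' ^ (2 / (d : ℝ)) := by positivity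
          nth_rewrite 1 [h1]
          field_simp
        have e2 : om d * t0 ^ (1 - (d : ℝ) / 2) =
            om d ^ (2 / (d : ℝ)) * V' ^ (1 - 2 / (d : ℝ)) := by
          rw [ht0, ← Real.rpow_mul (by positivity)]
          have h1 : (2 / (d : ℝ)) * (1 - (d : ℝ) / 2) = 2 / (d : ℝ) - 1 := by
            field_simp
          rw [h1, Real.div_rpow hom.le hVpos.le]
          have h2 : om d * om d ^ (2 / (d : ℝ) - 1) = om d ^ (2 / (d : ℝ)) := by
            nth_rewrite 1 [← Real.rpow_one (om d)]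
            rw [← Real.rpow_add hom]
            congr 1
            ring
          have h3 : (V' ^ (2 / (d : ℝ) - 1))⁻¹ = V' ^ (1 - 2 / (d : ℝ)) := by
            rw [← Real.rpow_neg hVpos.le]
            congr 1
            ring
          rw [div_eq_mul_inv, h3, ← mul_assoc, h2]
        rw [e1]
        have e4 : 2 / ((d : ℝ) - 2) * om d * t0 ^ (1 - (d : ℝ) / 2) =
            2 / ((d : ℝ) - 2) * (om d ^ (2 / (d : ℝ)) * V' ^ (1 - 2 / (d : ℝ))) := by
          rw [mul_assoc, e2]
        rw [e4]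
        generalize om d ^ (2 / (d : ℝ)) = a
        generalize V' ^ (1 - 2 / (d : ℝ)) = b
        field_simp
        ring

end Run7.h631.MY
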