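import Pool.Agent.Run7.h670.MY.StmD

/-!
# Project MY of helper670: piece D_CAKE (the bound for the energy with the kernel `|x - y|⁻²` in
`ℝ^d`), after the piece CAKE of helper305
-/

set_option autoImplicit false

open MeasureTheory Set
open scoped ENNReal RealInnerProductSpace

namespace Run7.h631.MYC

open Pool.Agent.Run7.h670.MY

variable {d : ℕ}

/-- Layer cake with a weight. -/
theorem cake (f : V d → ℝ) (hf : Measurable f) (h0 : ∀ x, 0 ≤ f x) (P : V d → ℝ≥0∞)
    (hP : Measurable P) :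
    ∫⁻ x, ENNReal.ofReal (f x) * P x = ∫⁻ a in Ioi (0 : ℝ), ∫⁻ x in {x | a < f x}, P x := by
  have h1 : ∫⁻ x, ENNReal.ofReal (f x) * P x =
      ∫⁻ x, ENNReal.ofReal (f x) ∂((volume : Measure (V d)).withDensity P) := by
    rw [lintegral_withDensity_eq_lintegral_mul _ hP hf.ennreal_ofReal]
    exact lintegral_congr fun x => mul_comm _ _
  rw [h1, lintegral_eq_lintegral_meas_lt _ (Filter.Eventually.of_forall h0) hf.aemeasurable]
  refine lintegral_congr fun a => ?_
  rw [withDensity_apply _ (measurableSet_lt measurable_const hf)]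

/-- The kernel. -/
noncomputable def kk (x y : V d) : ℝ≥0∞ := ENNReal.ofReal (‖x - y‖ ^ 2)⁻¹

theorem kk_meas : Measurable fun z : V d × V d => kk z.1 z.2 := by
  unfold kk
  fun_prop

theorem kk_meas_left (y : V d) : Measurable fun x : V d => kk x y := by
  unfold kk
  fun_prop

theorem kk_meas_right (x : V d) : Measurable fun y : V d => kk x y := by
  unfold kk
  fun_prop

theorem kk_symm (x y : V d) : kk x y = kk y x := by
  unfold kk
  rw [norm_sub_rev]

/-- The energy of two level sets. -/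
noncomputable def TT (f : V d → ℝ) (a b : ℝ) : ℝ≥0∞ :=
  ∫⁻ y in {y | b < f y}, ∫⁻ x in {x | a < f x}, kk x y

theorem riesz_eq (f : V d → ℝ) (hf : Measurable f) (h0 : ∀ x, 0 ≤ f x) :
    rieszD (fun x => ENNReal.ofReal (f x)) =
      ∫⁻ a in Ioi (0 : ℝ), ∫⁻ b in Ioi (0 : ℝ), TT f a b := by
  have hF := hf.ennreal_ofReal
  have h1 : rieszD (fun x => ENNReal.ofReal (f x)) =
      ∫⁻ x, ENNReal.ofReal (f x) * ∫⁻ y, ENNReal.ofReal (f y) * kk x y := by
    unfold rieszD
    refine lintegral_congr fun x => ?_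
    have hmm : Measurable fun y => ENNReal.ofReal (f y) * kk x y := hF.mul (kk_meas_right x)
    rw [← lintegral_const_mul _ hmm]
    exact lintegral_congr fun y => mul_assoc _ _ _
  have hm : Measurable fun z : V d × V d => ENNReal.ofReal (f z.2) * kk z.1 z.2 :=
    (hF.comp measurable_snd).mul kk_meas
  rw [h1, cake f hf h0 _ hm.lintegral_prod_right']
  refine lintegral_congr fun a => ?_
  have h2 : ∫⁻ x in {x | a < f x}, ∫⁻ y, ENNReal.ofReal (f y) * kk x y =
      ∫⁻ y, ENNReal.ofReal (f y) * ∫⁻ x in {x | a < f x}, kk x y := by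
    rw [lintegral_lintegral_swap hm.aemeasurable]
    refine lintegral_congr fun y => ?_
    rw [lintegral_const_mul _ (kk_meas_left y)]
  rw [h2, cake f hf h0 _ kk_meas.lintegral_prod_left']
  rfl

theorem TT_symm (f : V d → ℝ) (a b : ℝ) : TT f a b = TT f b a := by
  unfold TT
  rw [lintegral_lintegral_swap]
  · refine lintegral_congr fun x => lintegral_congr fun y => kk_symm _ _
  · exact (kk_meas.comp measurable_swap).aemeasurable

theorem meas_fin (f : V d → ℝ) (hf : Measurable f)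
    (hM : ∫⁻ x, ENNReal.ofReal (f x) ≠ ∞) (a : ℝ) (ha : 0 < a) :
    volume {x | a < f x} ≠ ∞ := by
  have h1 := mul_meas_ge_le_lintegral (μ := (volume : Measure (V d))) hf.ennreal_ofReal
    (ENNReal.ofReal a)
  have h2 : volume {x | a < f x} ≤ volume {x | ENNReal.ofReal a ≤ ENNReal.ofReal (f x)} :=
    measure_mono fun x hx => ENNReal.ofReal_le_ofReal (le_of_lt hx)
  intro h3
  rw [h3, top_le_iff] at h2
  rw [h2, ENNReal.mul_top (by simpa using ha)] at h1
  exact hM (top_le_iff.1 h1)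

/-- The constant of D_BALL. -/
noncomputable def cD (d : ℕ) : ℝ := (d : ℝ) / ((d : ℝ) - 2) * om d ^ (2 / (d : ℝ))

theorem TT_le (hB : D_BALL) (hd : 3 ≤ d) (f : V d → ℝ) (hf : Measurable f)
    (hM : ∫⁻ x, ENNReal.ofReal (f x) ≠ ∞) (a b : ℝ) (ha : 0 < a) :
    TT f a b ≤ ENNReal.ofReal (cD d) *
      (volume {x | a < f x} ^ (1 - 2 / (d : ℝ)) * volume {x | b < f x}) := by
  unfold TT
  calc _ ≤ ∫⁻ _y in {y | b < f y},
            ENNReal.ofReal (cD d) * volume {x | a < f x} ^ (1 - 2 / (d : ℝ)) :=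
        lintegral_mono fun y => hB d hd _ y (measurableSet_lt measurable_const hf)
          (meas_fin f hf hM a ha)
    _ = _ := by rw [setLIntegral_const, mul_assoc]

theorem hoelder (hd : 3 ≤ d) (V : ℝ → ℝ≥0∞) (hV : Measurable V) (M : ℝ≥0∞)
    (hM : ∫⁻ a in Ioi (0 : ℝ), V a = M) (b : ℝ) (hb : 0 < b) :
    ∫⁻ a in Ioc 0 b, V a ^ (1 - 2 / (d : ℝ)) ≤
      M ^ (1 - 2 / (d : ℝ)) * ENNReal.ofReal (b ^ (2 / (d : ℝ))) := by
  have hD : (3 : ℝ) ≤ d := by exact_mod_cast hd
  have hD0 : (d : ℝ) ≠ 0 := by linarith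
  have hD2 : (d : ℝ) - 2 ≠ 0 := by linarith
  have hD3 : (0 : ℝ) < (d : ℝ) - 2 := by linarith
  have hpq : Real.HolderConjugate ((d : ℝ) / ((d : ℝ) - 2)) ((d : ℝ) / 2) := by
    rw [Real.holderConjugate_iff]
    constructor
    · rw [lt_div_iff₀ hD3]
      linarith
    · field_simp
      ring
  have h := ENNReal.lintegral_mul_le_Lp_mul_Lq (volume.restrict (Ioc 0 b)) hpq
    (f := fun a => V a ^ (1 - 2 / (d : ℝ))) (g := fun _ => 1) (hV.pow_const _).aemeasurable
    aemeasurable_const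
  have e1 : ∀ a, (V a ^ (1 - 2 / (d : ℝ))) ^ ((d : ℝ) / ((d : ℝ) - 2)) = V a := fun a => by
    rw [← ENNReal.rpow_mul]
    have : (1 - 2 / (d : ℝ)) * ((d : ℝ) / ((d : ℝ) - 2)) = 1 := by
      field_simp
    rw [this, ENNReal.rpow_one]
  have e3 : 1 / ((d : ℝ) / ((d : ℝ) - 2)) = 1 - 2 / (d : ℝ) := by
    field_simp
  simp only [Pi.mul_apply, mul_one, e1, ENNReal.one_rpow, lintegral_const,
    Measure.restrict_apply_univ, one_mul, Real.volume_Ioc, sub_zero, e3] at h
  refine h.trans ?_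
  have e2 : ENNReal.ofReal b ^ (1 / ((d : ℝ) / 2) : ℝ) = ENNReal.ofReal (b ^ (2 / (d : ℝ))) := by
    rw [ENNReal.ofReal_rpow_of_pos hb]
    congr 2
    field_simp
  rw [e2]
  have h0 : 0 ≤ 1 - 2 / (d : ℝ) := by
    rw [sub_nonneg, div_le_one (by linarith)]
    linarith
  gcongr
  rw [← hM]
  exact lintegral_mono_set Ioc_subset_Ioi_self

theorem t_D_CAKE : D_BALL → D_CAKE := by
  intro hB d hd f hf h0 hM
  have hD : (3 : ℝ) ≤ d := by exact_mod_cast hd
  have hD0 : (d : ℝ) ≠ 0 := by linarith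
  have hD4 : (d : ℝ) + 2 ≠ 0 := by linarith
  set M : ℝ≥0∞ := ∫⁻ x, ENNReal.ofReal (f x) with hMd
  set V' : ℝ → ℝ≥0∞ := fun a => volume {x | a < f x} with hV
  set e : ℝ := 1 - 2 / (d : ℝ) with he
  have hVm : Measurable V' := by
    have : Antitone V' := fun a b hab => measure_mono fun x hx => lt_of_le_of_lt hab hx
    exact this.measurable
  have hVM : ∫⁻ a in Ioi (0 : ℝ), V' a = M :=
    (lintegral_eq_lintegral_meas_lt _ (Filter.Eventually.of_forall h0) hf.aemeasurable).symm
  -- the majorant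
  set G : ℝ → ℝ → ℝ≥0∞ := fun a b => (Iic a).indicator (fun b => V' b ^ e * V' a) b with hG
  have hGm : Measurable fun z : ℝ × ℝ => G z.1 z.2 := by
    have e : (fun z : ℝ × ℝ => G z.1 z.2) = {z : ℝ × ℝ | z.2 ≤ z.1}.indicator
        fun z => V' z.2 ^ e * V' z.1 := by
      funext z
      simp only [hG, indicator, mem_Iic, mem_ofPred_eq]
    rw [e]
    exact (((hVm.comp measurable_snd).pow_const _).mul (hVm.comp measurable_fst)).indicator
      (measurableSet_le measurable_snd measurable_fst)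
  have hT : ∀ a, 0 < a → ∀ b, 0 < b → TT f a b ≤ ENNReal.ofReal (cD d) * (G a b + G b a) := by
    intro a ha b hb
    rcases le_total b a with h | h
    · rw [TT_symm]
      refine (TT_le hB hd f hf hM b a hb).trans ?_
      gcongr
      refine le_add_right (le_of_eq ?_)
      simp only [hG]
      rw [indicator_of_mem (by exact h)]
    · refine (TT_le hB hd f hf hM a b ha).trans ?_
      gcongr
      refine le_add_left (le_of_eq ?_)
      simp only [hG]
      rw [indicator_of_mem (by exact h)]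
  have hGI : ∀ a, 0 < a → ∫⁻ b in Ioi (0 : ℝ), G a b ≤
      V' a * (M ^ e * ENNReal.ofReal (a ^ (2 / (d : ℝ)))) := by
    intro a ha
    simp only [hG]
    rw [lintegral_indicator measurableSet_Iic, Measure.restrict_restrict measurableSet_Iic,
      inter_comm, Ioi_inter_Iic, lintegral_mul_const _ (hVm.pow_const _), mul_comm]
    gcongr
    exact hoelder hd V' hVm M hVM a ha
  set I : ℝ≥0∞ := ∫⁻ a in Ioi (0 : ℝ), ∫⁻ b in Ioi (0 : ℝ), G a b with hI
  have hI2 : ∫⁻ a in Ioi (0 : ℝ), ∫⁻ b in Ioi (0 : ℝ), G b a = I := by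
    rw [hI]
    exact lintegral_lintegral_swap (f := fun a b => G b a) (hGm.comp measurable_swap).aemeasurable
  have hIle : I ≤ M ^ e * (ENNReal.ofReal ((d : ℝ) / ((d : ℝ) + 2)) *
      ∫⁻ x, ENNReal.ofReal (f x ^ (1 + 2 / (d : ℝ)))) := by
    have h1 := lintegral_rpow_eq_lintegral_meas_lt_mul (volume : Measure (V d))
      (Filter.Eventually.of_forall h0) hf.aemeasurable (p := 1 + 2 / (d : ℝ)) (by positivity)
    have h2 : ENNReal.ofReal ((d : ℝ) / ((d : ℝ) + 2)) *
          ∫⁻ x, ENNReal.ofReal (f x ^ (1 + 2 / (d : ℝ))) =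
        ∫⁻ a in Ioi (0 : ℝ), V' a * ENNReal.ofReal (a ^ (2 / (d : ℝ))) := by
      rw [h1, ← mul_assoc, ← ENNReal.ofReal_mul (by positivity)]
      have e5 : (d : ℝ) / ((d : ℝ) + 2) * (1 + 2 / (d : ℝ)) = 1 := by
        field_simp
      have e6 : (1 + 2 / (d : ℝ) - 1) = 2 / (d : ℝ) := by ring
      rw [e5, e6, ENNReal.ofReal_one, one_mul]
    have hmm : Measurable fun a : ℝ => V' a * ENNReal.ofReal (a ^ (2 / (d : ℝ))) :=
      hVm.mul (measurable_id.pow_const _).ennreal_ofReal
    rw [h2, ← lintegral_const_mul _ hmm]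
    refine setLIntegral_mono' measurableSet_Ioi fun a ha => (hGI a ha).trans (le_of_eq ?_)
    ring
  calc rieszD (fun x => ENNReal.ofReal (f x))
      = ∫⁻ a in Ioi (0 : ℝ), ∫⁻ b in Ioi (0 : ℝ), TT f a b := riesz_eq f hf h0
    _ ≤ ∫⁻ a in Ioi (0 : ℝ), ∫⁻ b in Ioi (0 : ℝ), ENNReal.ofReal (cD d) * (G a b + G b a) := by
        refine setLIntegral_mono' measurableSet_Ioi fun a ha => ?_
        exact setLIntegral_mono' measurableSet_Ioi fun b hb => hT a ha b hb
    _ = ENNReal.ofReal (cD d) * (I + I) := by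
        have h1 : ∀ a, ∫⁻ b in Ioi (0 : ℝ), ENNReal.ofReal (cD d) * (G a b + G b a) =
            ENNReal.ofReal (cD d) * (∫⁻ b in Ioi (0 : ℝ), G a b) +
            ENNReal.ofReal (cD d) * ∫⁻ b in Ioi (0 : ℝ), G b a := by
          intro a
          have m1 : Measurable fun b => G a b := hGm.comp (measurable_const.prodMk measurable_id)
          have m2 : Measurable fun b => G b a := hGm.comp (measurable_id.prodMk measurable_const)
          have m3 : Measurable fun b => G a b + G b a := m1.add m2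
          rw [lintegral_const_mul _ m3, lintegral_add_left m1, mul_add]
        simp only [h1]
        rw [lintegral_add_left (hGm.lintegral_prod_right'.const_mul _),
          lintegral_const_mul _ hGm.lintegral_prod_right',
          lintegral_const_mul _ hGm.lintegral_prod_left', ← hI, hI2, mul_add]
    _ ≤ ENNReal.ofReal (cD d) * (M ^ e * (ENNReal.ofReal ((d : ℝ) / ((d : ℝ) + 2)) *
          ∫⁻ x, ENNReal.ofReal (f x ^ (1 + 2 / (d : ℝ)))) +
          M ^ e * (ENNReal.ofReal ((d : ℝ) / ((d : ℝ) + 2)) *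
          ∫⁻ x, ENNReal.ofReal (f x ^ (1 + 2 / (d : ℝ))))) := by
        gcongr
    _ = _ := by
        have e : ENNReal.ofReal (2 * ((d : ℝ) / ((d : ℝ) + 2)) *
              ((d : ℝ) / ((d : ℝ) - 2) * om d ^ (2 / (d : ℝ)))) =
            ENNReal.ofReal ((d : ℝ) / ((d : ℝ) + 2)) * ENNReal.ofReal (cD d) * 2 := by
          rw [← ENNReal.ofReal_mul (by positivity), ← ENNReal.ofReal_ofNat 2,
            ← ENNReal.ofReal_mul' (by norm_num)]
          congr 1
          unfold cD
          ring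
        rw [e]
        ring

end Run7.h631.MYC
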